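import Pool.Agent.Q32.SK.Stm

/-!
# Project SK, job EHT: hypertournaments have equivariant extensions
-/

set_option autoImplicit false

namespace Q213.SK

open Function Q32.SK
open scoped Pointwise

/-- the elements with few fixed points -/
theorem finFix {k : ℕ} {H M : Type} [Group H] [MulAction H M]
    (shp : ∀ (g : H) (a : Fin k → M), Injective a → (∀ i, g • a i = a i) → g = 1) (g : H)
    (hg : g ≠ 1) : {m : M | g • m = m}.Finite := by
  by_contra h
  obtain ⟨f⟩ : Nonempty (Fin k ↪ {m : M | g • m = m}) := by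
    have : Infinite {m : M | g • m = m} := Set.infinite_coe_iff.2 h
    exact ⟨(Fin.valEmbedding).trans (Infinite.natEmbedding _)⟩
  exact hg (shp g (fun i => (f i : M)) (fun i j hij => f.injective (Subtype.ext hij))
    fun i => (f i).2)

section

variable {k : ℕ} {Θ : Subgroup (Equiv.Perm (Fin k))} {G M J : Type} [Group G] [MulAction G M]
  {r : Str Unit (fun _ => k) M} {S : Subgroup G} {C : Set M}
  {D : Str Unit (fun _ => k) (Ex G M J)}

omit [MulAction G M] in
theorem mem_Zs_old {x : M} : (Ex.old J x : Ex G M J) ∈ Zs S C J ↔ x ∈ C := by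
  constructor
  · rintro (⟨c, hc, h⟩ | ⟨s, hs, j, h⟩)
    · rwa [Ex.old_inj h]
    · exact (Ex.old_ne_new h).elim
  · intro h
    exact Or.inl ⟨x, h, rfl⟩

omit [MulAction G M] in
theorem mem_Zs_new {h : G} {j : J} : (Ex.new M h j : Ex G M J) ∈ Zs S C J ↔ h ∈ S := by
  constructor
  · rintro (⟨c, hc, h'⟩ | ⟨s, hs, j', h'⟩)
    · exact (Ex.old_ne_new h'.symm).elim
    · rwa [(Ex.new_inj h').1]
  · intro hh
    exact Or.inr ⟨h, hh, j, rfl⟩

/-- the tuples with a prescribed relation -/
def YY (S : Subgroup G) (C : Set M) (J : Type) (k : ℕ) : Set (Fin k → Ex G M J) :=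
  {e | (∃ e' : Fin k → M, e = fun l => Ex.old J (e' l)) ∨ ∃ g : G, ∀ l, g • e l ∈ Zs S C J}

/-- the prescribed relation -/
def R0 (r : Str Unit (fun _ => k) M) (S : Subgroup G) (C : Set M)
    (D : Str Unit (fun _ => k) (Ex G M J)) (e : Fin k → Ex G M J) : Prop :=
  (∃ e' : Fin k → M, e = (fun l => Ex.old J (e' l)) ∧ r () e') ∨
    ∃ g : G, (∀ l, g • e l ∈ Zs S C J) ∧ D () (fun l => g • e l)

theorem R0_old (hG : Good k (HT k Θ) G M r) (hA : Adm (HT k Θ) r S C D) (e' : Fin k → M) :
    R0 r S C D (fun l => Ex.old J (e' l)) ↔ r () e' := by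
  constructor
  · rintro (⟨e'', h, h'⟩ | ⟨g, h, h'⟩)
    · have : e' = e'' := by
        funext l
        exact Ex.old_inj (congrFun h l)
      rwa [this]
    · simp only [Ex.smul_old] at h h'
      have h1 : ∀ l, g • e' l ∈ C := fun l => mem_Zs_old.1 (h l)
      rw [hA.Dr () (fun l => g • e' l) h1] at h'
      have h2 := congrFun (congrFun (hG.inv g) ()) e'
      exact (Eq.mp h2) h'
  · intro h
    exact Or.inl ⟨e', rfl, h⟩

theorem R0_Zs (hG : Good k (HT k Θ) G M r) (hA : Adm (HT k Θ) r S C D)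
    (e : Fin k → Ex G M J) (g : G) (h : ∀ l, g • e l ∈ Zs S C J) :
    R0 r S C D e ↔ D () (fun l => g • e l) := by
  by_cases hold : ∃ e' : Fin k → M, e = fun l => Ex.old J (e' l)
  · obtain ⟨e', rfl⟩ := hold
    rw [R0_old hG hA]
    simp only [Ex.smul_old] at h ⊢
    have h1 : ∀ l, g • e' l ∈ C := fun l => mem_Zs_old.1 (h l)
    rw [hA.Dr () (fun l => g • e' l) h1]
    have h2 := congrFun (congrFun (hG.inv g) ()) e'
    exact (iff_of_eq h2).symm
  · constructor
    · rintro (⟨e'', h', -⟩ | ⟨g', h', hD⟩)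
      · exact (hold ⟨e'', h'⟩).elim
      · -- a new point
        have hnew : ∃ l h₀ j, e l = Ex.new M h₀ j := by
          by_contra hcon
          push Not at hcon
          apply hold
          have h3 : ∀ l, ∃ x, e l = Ex.old J x := by
            intro l
            rcases Ex.cases (e l) with hx | ⟨h₀, j, hx⟩
            · exact hx
            · exact (hcon l h₀ j hx).elim
          choose e' he' using h3
          exact ⟨e', funext he'⟩
        obtain ⟨l, h₀, j, hl⟩ := hnew
        have e1 := h l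
        have e2 := h' l
        rw [hl, Ex.smul_new, mem_Zs_new] at e1 e2
        have e3 : g * g'⁻¹ ∈ S := by
          have := S.mul_mem e1 (S.inv_mem e2)
          have e4 : g * h₀ * (g' * h₀)⁻¹ = g * g'⁻¹ := by group
          rwa [e4] at this
        have e5 := hA.Dinv (g * g'⁻¹) e3 () (fun l => g' • e l) h'
        have e6 : (fun l => (g * g'⁻¹) • g' • e l) = fun l => g • e l := by
          funext l
          rw [← mul_smul, inv_mul_cancel_right]
        rw [e6] at e5
        exact e5.2 hD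
    · intro hD
      exact Or.inr ⟨g, h, hD⟩

theorem smul_Zs (hA : Adm (HT k Θ) r S C D) {s : G} (hs : s ∈ S) {w : Ex G M J}
    (hw : w ∈ Zs S C J) : s • w ∈ Zs S C J := by
  rcases hw with ⟨c, hc, rfl⟩ | ⟨t, ht, j, rfl⟩
  · exact mem_Zs_old.2 (hA.inv s hs c hc)
  · exact mem_Zs_new.2 (S.mul_mem hs ht)

end

theorem eht : S_EHT := by
  intro hHTX hFE k Θ G M _ _ _ _ _ r hG J _ S C D hA
  classical
  obtain ⟨c1, c2, c3⟩ := hG.cls
  obtain ⟨d1, d2, d3⟩ := hA.cls
  -- relations between the two descriptions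
  have hcl : ∀ e ∈ YY S C J k, (∃ e' : Fin k → M, e = fun l => Ex.old J (e' l)) ∨
      ∃ g : G, ∀ l, g • e l ∈ Zs S C J := fun e he => he
  have main := hHTX k Θ G (Ex G M J) (YY S C J k) (R0 r S C D) ?_ ?_ ?_ ?_ ?_ ?_ ?_
  · obtain ⟨r', hK, hinv, hr'⟩ := main
    refine ⟨r', hK, hinv, ?_, ?_⟩
    · funext u v
      apply propext
      have h1 : (fun l => Ex.old J (v l) : Fin k → Ex G M J) ∈ YY S C J k := Or.inl ⟨v, rfl⟩
      exact (hr' _ h1).trans (R0_old hG hA v)
    · intro i v hv
      have h0 : ∀ l, (1 : G) • v l ∈ Zs S C J := fun l => by rw [one_smul]; exact hv l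
      have h1 : v ∈ YY S C J k := Or.inr ⟨1, h0⟩
      refine (hr' _ h1).trans ((R0_Zs hG hA v 1 h0).trans ?_)
      simp only [one_smul]
  · -- invariance of `Y`
    rintro e (⟨e', rfl⟩ | ⟨g', h⟩) g
    · exact Or.inl ⟨fun l => g • e' l, rfl⟩
    · refine Or.inr ⟨g' * g⁻¹, fun l => ?_⟩
      rw [← mul_smul, inv_mul_cancel_right]
      exact h l
  · rintro e (⟨e', rfl⟩ | ⟨g', h⟩) π
    · exact Or.inl ⟨fun l => e' (π l), rfl⟩
    · exact Or.inr ⟨g', fun l => h (π l)⟩
  · -- injective
    rintro e he (⟨e', rfl, h⟩ | ⟨g, h, hD⟩)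
    · intro i j hij
      exact c1 e' h (Ex.old_inj hij)
    · have := d1 (fun l => ⟨g • e l, h l⟩) hD
      intro i j hij
      exact this (Subtype.ext (congrArg (fun w => g • w) hij))
  · -- invariance of the relation
    have key : ∀ (e : Fin k → Ex G M J) (g : G), R0 r S C D e → R0 r S C D (fun i => g • e i) := by
      rintro e g (⟨e', rfl, h⟩ | ⟨g', h, hD⟩)
      · refine Or.inl ⟨fun l => g • e' l, rfl, ?_⟩
        exact Eq.mpr (congrFun (congrFun (hG.inv g) ()) e') h
      · have e1 : ∀ l, (g' * g⁻¹) • g • e l = g' • e l := fun l => by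
          rw [← mul_smul, inv_mul_cancel_right]
        refine Or.inr ⟨g' * g⁻¹, fun l => ?_, ?_⟩
        · rw [e1]
          exact h l
        · simp only [e1]
          exact hD
    intro e _ g
    constructor
    · intro h
      have := key _ g⁻¹ h
      simpa only [inv_smul_smul] using this
    · exact key e g
  · -- existence
    rintro e (⟨e', rfl⟩ | ⟨g, h⟩) hi
    · have hi' : Injective e' := fun i j hij => hi (congrArg (Ex.old J) hij)
      obtain ⟨π, hπ⟩ := c2 e' hi'
      exact ⟨π, (R0_old hG hA fun i => e' (π i)).2 hπ⟩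
    · obtain ⟨π, hπ⟩ := d2 (fun l => ⟨g • e l, h l⟩) (fun i j hij =>
        hi (smul_left_cancel g (congrArg Subtype.val hij)))
      exact ⟨π, (R0_Zs hG hA (fun i => e (π i)) g fun l => h (π l)).2 hπ⟩
  · -- cosets
    rintro e (⟨e', rfl⟩ | ⟨g, h⟩) π h0
    · rw [R0_old hG hA] at h0
      have := R0_old hG hA (fun i => e' (π i))
      rw [this]
      exact c3 e' π h0
    · rw [R0_Zs hG hA e g h] at h0
      rw [R0_Zs hG hA (fun i => e (π i)) g fun l => h (π l)]
      exact d3 (fun l => ⟨g • e l, h l⟩) π h0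
  · -- the other tuples
    intro e he hinj
    -- a new point
    have hnew : ∃ l h₀ j, e l = Ex.new M h₀ j := by
      by_contra hcon
      push Not at hcon
      apply he
      have h3 : ∀ l, ∃ x, e l = Ex.old J x := by
        intro l
        rcases Ex.cases (e l) with hx | ⟨h₀, j, hx⟩
        · exact hx
        · exact (hcon l h₀ j hx).elim
      choose e' he' using h3
      exact Or.inl ⟨e', funext he'⟩
    obtain ⟨l₀, h₀, j₀, hl₀⟩ := hnew
    let H : Subgroup G := MulAction.stabilizer G (Set.range e)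
    have hmem : ∀ g : G, (∀ i, g • e i ∈ Set.range e) → g ∈ H := by
      intro g hg
      rw [MulAction.mem_stabilizer_iff]
      have h1 : g • Set.range e ⊆ Set.range e := by
        rintro _ ⟨_, ⟨i, rfl⟩, rfl⟩
        exact hg i
      have h2 : (Set.range e).ncard ≤ (g • Set.range e).ncard := by
        have : g • Set.range e = (fun w => g • w) '' Set.range e := rfl
        rw [this, Set.ncard_image_of_injective _ (MulAction.injective g)]
      exact Set.eq_of_subset_of_ncard_le h1 h2 (Set.finite_range e)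
    have hst : ∀ (g : H) (w : Ex G M J), w ∈ Set.range e → (g : G) • w ∈ Set.range e := by
      intro g w hw
      have h1 := MulAction.mem_stabilizer_iff.1 g.2
      rw [← h1]
      exact Set.smul_mem_smul_set hw
    have hfree : ∀ (g h : G) (j : J), g • (Ex.new M h j : Ex G M J) = Ex.new M h j → g = 1 := by
      intro g h j hh
      rw [Ex.smul_new] at hh
      have := (Ex.new_inj hh).1
      exact mul_eq_right.1 this
    have finH : Finite H := by
      have : Finite (Set.range e) := Set.finite_range e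
      refine Finite.of_injective
        (fun g : H => (⟨(g : G) • e l₀, hst g _ ⟨l₀, rfl⟩⟩ : Set.range e)) ?_
      intro g g' hgg
      have h1 : (g : G) • e l₀ = (g' : G) • e l₀ := congrArg Subtype.val hgg
      rw [hl₀, Ex.smul_new, Ex.smul_new] at h1
      exact Subtype.ext (mul_right_cancel (Ex.new_inj h1).1)
    let XN : Type := {w : Ex G M J // w ∈ Set.range e ∧ ∃ h j, w = Ex.new M h j}
    have finN : Finite XN := by
      have : Finite (Set.range e) := Set.finite_range e
      refine Finite.of_injective (fun w : XN => (⟨w.1, w.2.1⟩ : Set.range e)) ?_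
      intro w w' h
      have h' : w.1 = w'.1 := congrArg (fun z : Set.range e => (z : Ex G M J)) h
      exact Subtype.ext h'
    let actN : MulAction H XN :=
      { smul := fun g w => ⟨(g : G) • w.1, hst g _ w.2.1, by
          obtain ⟨h, j, hw⟩ := w.2.2
          exact ⟨(g : G) * h, j, by rw [hw, Ex.smul_new]⟩⟩
        one_smul := fun w => Subtype.ext (one_smul G w.1)
        mul_smul := fun g g' w => Subtype.ext (mul_smul (g : G) (g' : G) w.1) }
    have hval : ∀ (g : H) (w : XN), (g • w).1 = (g : G) • w.1 := fun _ _ => rfl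
    have hfix : {m : M | ∃ h : H, h ≠ 1 ∧ h • m = m}.Finite := by
      have h1 : {m : M | ∃ h : H, h ≠ 1 ∧ h • m = m} ⊆
          ⋃ h : {h : H // h ≠ 1}, {m : M | (h.1 : G) • m = m} := by
        rintro m ⟨h, hh, hm⟩
        exact Set.mem_iUnion.2 ⟨⟨h, hh⟩, hm⟩
      refine (Set.finite_iUnion fun h => ?_).subset h1
      exact finFix (k := k) hG.shp (h.1 : G) fun h' => h.2 (Subtype.ext h')
    have hO : {x : M | (Ex.old J x : Ex G M J) ∈ Set.range e}.Finite := by
      refine Set.Finite.preimage (fun x _ y _ h => Ex.old_inj h) (Set.finite_range e)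
    obtain ⟨ψ, ψinj, ψeq, ψO, -⟩ := hFE H M XN (by
      rintro h ⟨w, hw, h', j, rfl⟩ hh
      have := congrArg Subtype.val hh
      exact Subtype.ext (hfree _ _ _ this)) hfix _ hO
    -- the image of the tuple
    have hex : ∀ i, ∃ x : M, (∀ y, e i = Ex.old J y → x = y) ∧
        ∀ w : XN, w.1 = e i → x = ψ w := by
      intro i
      rcases Ex.cases (e i) with ⟨y, hy⟩ | ⟨h, j, hj⟩
      · refine ⟨y, fun y' hy' => ?_, fun w hw => ?_⟩
        · rw [hy] at hy'
          exact Ex.old_inj hy'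
        · obtain ⟨h, j, hw'⟩ := w.2.2
          rw [hw, hy] at hw'
          exact (Ex.old_ne_new hw').elim
      · refine ⟨ψ ⟨e i, ⟨i, rfl⟩, h, j, hj⟩, fun y hy => ?_, fun w hw => ?_⟩
        · rw [hj] at hy
          exact (Ex.old_ne_new hy.symm).elim
        · congr 1
          exact Subtype.ext hw.symm
    choose e' he1 he2 using hex
    have e'inj : Injective e' := by
      intro i i' hii
      rcases Ex.cases (e i) with ⟨y, hy⟩ | ⟨h, j, hj⟩ <;>
        rcases Ex.cases (e i') with ⟨y', hy'⟩ | ⟨h', j', hj'⟩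
      · apply hinj
        rw [hy, hy', ← he1 i y hy, ← he1 i' y' hy', hii]
      · exfalso
        refine ψO ⟨e i', ⟨i', rfl⟩, h', j', hj'⟩ ?_
        rw [← he2 i' ⟨e i', ⟨i', rfl⟩, h', j', hj'⟩ rfl, ← hii, he1 i y hy]
        exact ⟨i, hy⟩
      · exfalso
        refine ψO ⟨e i, ⟨i, rfl⟩, h, j, hj⟩ ?_
        rw [← he2 i ⟨e i, ⟨i, rfl⟩, h, j, hj⟩ rfl, hii, he1 i' y' hy']
        exact ⟨i', hy'⟩
      · apply hinj
        have h1 := he2 i ⟨e i, ⟨i, rfl⟩, h, j, hj⟩ rfl
        have h2 := he2 i' ⟨e i', ⟨i', rfl⟩, h', j', hj'⟩ rfl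
        rw [hii, h2] at h1
        exact (congrArg Subtype.val (ψinj h1)).symm
    have e'eq : ∀ (g : G), g ∈ H → ∀ i i', g • e i = e i' → g • e' i = e' i' := by
      intro g hg i i' hgi
      rcases Ex.cases (e i) with ⟨y, hy⟩ | ⟨h, j, hj⟩
      · rw [he1 i y hy]
        rw [hy, Ex.smul_old] at hgi
        exact (he1 i' (g • y) hgi.symm).symm
      · have h1 := he2 i ⟨e i, ⟨i, rfl⟩, h, j, hj⟩ rfl
        rw [h1]
        have h2 := ψeq ⟨g, hg⟩ ⟨e i, ⟨i, rfl⟩, h, j, hj⟩
        have h3 := he2 i' ((⟨g, hg⟩ : H) • (⟨e i, ⟨i, rfl⟩, h, j, hj⟩ : XN)) (by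
          rw [hval]
          exact hgi)
        rw [h3, h2]
        rfl
    obtain ⟨π₀, hπ₀⟩ := c2 e' e'inj
    refine ⟨π₀, fun g π hgπ => ?_⟩
    have hgH : g ∈ H := by
      apply hmem
      intro i
      have := hgπ (π₀⁻¹ i)
      have e1 : π₀ (π₀⁻¹ i) = i := Equiv.apply_symm_apply π₀ i
      rw [e1] at this
      exact ⟨_, this.symm⟩
    have h1 : ∀ i, g • e' (π₀ i) = e' (π₀ (π i)) := fun i => e'eq g hgH _ _ (hgπ i)
    have h2 : r () (fun i => g • e' (π₀ i)) :=
      Eq.mpr (congrFun (congrFun (hG.inv g) ()) (fun i => e' (π₀ i))) hπ₀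
    have h3 : (fun i => g • e' (π₀ i)) = fun i => e' (π₀ (π i)) := funext h1
    rw [h3] at h2
    exact (c3 (fun i => e' (π₀ i)) π hπ₀).1 h2

end Q213.SK
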