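import Pool.Agent.Q32.SK.Stm

/-!
# Project SK, job HTX: choosing equivariant hypertournaments
-/

set_option autoImplicit false

namespace Q213.SK

open Function Q32.SK

theorem ais {α : Type} (π : Equiv.Perm α) (x : α) : π (π⁻¹ x) = x := Equiv.apply_symm_apply π x

section

variable (k : ℕ) (G X : Type) [Group G] [MulAction G X]

/-- tuples which differ by a group element and a permutation -/
def std : Setoid (Fin k → X) where
  r e e' := ∃ (g : G) (π : Equiv.Perm (Fin k)), ∀ i, e' i = g • e (π i)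
  iseqv :=
    { refl := fun e => ⟨1, 1, fun i => by simp⟩
      symm := by
        rintro e e' ⟨g, π, h⟩
        exact ⟨g⁻¹, π⁻¹, fun i => by rw [h, inv_smul_smul, ais]⟩
      trans := by
        rintro e e' e'' ⟨g, π, h⟩ ⟨g', π', h'⟩
        exact ⟨g' * g, π * π', fun i => by rw [h', h, mul_smul, Equiv.Perm.mul_apply]⟩ }

end

theorem htx : S_HTX := by
  intro k Θ G X _ _ Y r0 h1 h2 h3 h4 h5 h6 h7
  classical
  let s := std k G X
  -- `Y` is a union of classes
  have hY : ∀ e e' : Fin k → X, s.r e e' → e ∈ Y → e' ∈ Y := by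
    rintro e e' ⟨g, π, h⟩ he
    have : e' = fun i => g • (fun i => e (π i)) i := funext h
    rw [this]
    exact h1 _ (h2 e he π) g
  have hinj : ∀ e e' : Fin k → X, s.r e e' → Injective e → Injective e' := by
    rintro e e' ⟨g, π, h⟩ he i j hij
    rw [h, h] at hij
    exact π.injective (he (smul_left_cancel g hij))
  have hout : ∀ e : Fin k → X, s.r (Quotient.out (s := s) (Quotient.mk s e)) e :=
    fun e => Quotient.mk_out (s := s) e
  -- the representative
  let base : Quotient s → Fin k → X := fun q =>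
    if h : q.out ∉ Y ∧ Injective q.out then
      fun i => q.out ((h7 q.out h.1 h.2).choose i) else q.out
  have hbase : ∀ e : Fin k → X, e ∉ Y → Injective e →
      s.r (base (Quotient.mk s e)) e ∧ ∀ (g : G) (π : Equiv.Perm (Fin k)),
        (∀ i, g • base (Quotient.mk s e) i = base (Quotient.mk s e) (π i)) → π ∈ Θ := by
    intro e he hi
    have ho : (Quotient.mk s e).out ∉ Y ∧ Injective (Quotient.mk s e).out :=
      ⟨fun h => he (hY _ _ (hout e) h), hinj _ _ (s.iseqv.symm (hout e)) hi⟩
    have hb : base (Quotient.mk s e) = fun i => (Quotient.mk s e).out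
        ((h7 (Quotient.mk s e).out ho.1 ho.2).choose i) := dif_pos ho
    constructor
    · rw [hb]
      refine s.iseqv.trans ?_ (hout e)
      exact s.iseqv.symm ⟨1, _, fun i => (one_smul G _).symm⟩
    · rw [hb]
      exact (h7 (Quotient.mk s e).out ho.1 ho.2).choose_spec
  have hq : ∀ e e' : Fin k → X, s.r e e' → Quotient.mk s e = Quotient.mk s e' :=
    fun e e' h => Quotient.sound h
  let r : Str Unit (fun _ => k) X := fun _ e =>
    if e ∈ Y then r0 e else Injective e ∧ ∃ (g : G) (θ : Equiv.Perm (Fin k)), θ ∈ Θ ∧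
      ∀ i, e i = g • base (Quotient.mk s e) (θ i)
  have rY : ∀ e, e ∈ Y → (r () e ↔ r0 e) := fun e he => by
    simp only [r, if_pos he]
  have rN : ∀ e, e ∉ Y → (r () e ↔ Injective e ∧ ∃ (g : G) (θ : Equiv.Perm (Fin k)), θ ∈ Θ ∧
      ∀ i, e i = g • base (Quotient.mk s e) (θ i)) := fun e he => by
    simp only [r, if_neg he]
  have hperm : ∀ (e : Fin k → X) (π : Equiv.Perm (Fin k)), s.r e (fun i => e (π i)) :=
    fun e π => ⟨1, π, fun i => (one_smul G _).symm⟩
  have hsm : ∀ (e : Fin k → X) (g : G), s.r e (fun i => g • e i) :=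
    fun e g => ⟨g, 1, fun i => rfl⟩
  refine ⟨r, ⟨?_, ?_, ?_⟩, ?_, rY⟩
  · intro a ha
    by_cases haY : a ∈ Y
    · exact h3 a haY ((rY a haY).1 ha)
    · exact ((rN a haY).1 ha).1
  · intro a ha
    by_cases haY : a ∈ Y
    · obtain ⟨π, hπ⟩ := h5 a haY ha
      exact ⟨π, (rY _ (h2 a haY π)).2 hπ⟩
    · obtain ⟨⟨g, σ, hσ⟩, -⟩ := hbase a haY ha
      refine ⟨σ⁻¹, ?_⟩
      have hN : (fun i => a (σ⁻¹ i)) ∉ Y := fun h => haY (hY _ _ (s.iseqv.symm (hperm a σ⁻¹)) h)
      rw [rN _ hN]
      refine ⟨ha.comp (σ⁻¹ : Equiv.Perm (Fin k)).injective, g, 1, one_mem _, fun i => ?_⟩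
      rw [← hq _ _ (hperm a σ⁻¹), hσ, ais]
      rfl
  · intro a π ha
    by_cases haY : a ∈ Y
    · rw [rY a haY] at ha
      rw [rY _ (h2 a haY π)]
      exact h6 a haY π ha
    · have hN : (fun i => a (π i)) ∉ Y := fun h => haY (hY _ _ (s.iseqv.symm (hperm a π)) h)
      rw [rN _ haY] at ha
      obtain ⟨hai, g, θ, hθ, hg⟩ := ha
      obtain ⟨-, hb⟩ := hbase a haY hai
      rw [rN _ hN, ← hq _ _ (hperm a π)]
      constructor
      · rintro ⟨-, g', θ', hθ', hg'⟩
        have key : ∀ j, (g'⁻¹ * g) • base (Quotient.mk s a) j =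
            base (Quotient.mk s a) ((θ' * (θ * π)⁻¹) j) := by
          intro j
          have e1 := hg' ((θ * π)⁻¹ j)
          rw [hg] at e1
          have e2 : θ (π ((θ * π)⁻¹ j)) = j := by
            rw [← Equiv.Perm.mul_apply, ais]
          rw [e2] at e1
          rw [mul_smul, e1, inv_smul_smul, Equiv.Perm.mul_apply]
        have e3 := hb _ _ key
        have e4 : (θ * π)⁻¹ ∈ Θ := by
          have := Θ.mul_mem (Θ.inv_mem hθ') e3
          rwa [inv_mul_cancel_left] at this
        have e5 := Θ.inv_mem e4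
        rw [inv_inv] at e5
        have := Θ.mul_mem (Θ.inv_mem hθ) e5
        rwa [inv_mul_cancel_left] at this
      · intro hπ
        exact ⟨hai.comp π.injective, g, θ * π, Θ.mul_mem hθ hπ, fun i => by
          rw [hg, Equiv.Perm.mul_apply]⟩
  · intro g
    funext u v
    have key : ∀ (g : G) (v : Fin k → X), r () v → r () (fun l => g • v l) := by
      intro g v hv
      by_cases hvY : v ∈ Y
      · rw [rY _ (h1 v hvY g), h4 v hvY g]
        exact (rY v hvY).1 hv
      · have hN : (fun i => g • v i) ∉ Y := fun h => hvY (hY _ _ (s.iseqv.symm (hsm v g)) h)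
        rw [rN _ hvY] at hv
        obtain ⟨hvi, g', θ, hθ, hg'⟩ := hv
        rw [rN _ hN, ← hq _ _ (hsm v g)]
        refine ⟨(MulAction.injective g).comp hvi, g * g', θ, hθ, fun i => ?_⟩
        rw [hg', mul_smul]
    apply propext
    constructor
    · intro h
      have := key g⁻¹ (fun l => g • v l) h
      simpa only [inv_smul_smul] using this
    · exact key g v

end Q213.SK
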